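import Mathlib

/-! # Edge weights (`MP_a499ba_nt`): the layer cake of a monotone weight -/

set_option autoImplicit false
open MeasureTheory Real Set Filter Topology
open scoped ENNReal

namespace Pool.Agent.Helper95.EW

/-- the place where the weight passes the level `lam` -/
noncomputable def Ac (w : ℝ → ℝ) (lam : ℝ) : ℝ := sInf {t | t ∈ Set.Ico (0:ℝ) 1 ∧ lam < w t}

variable {w : ℝ → ℝ}

theorem Ac_bdd (w : ℝ → ℝ) (lam : ℝ) : BddBelow {t | t ∈ Set.Ico (0:ℝ) 1 ∧ lam < w t} := ⟨0, fun _ h => h.1.1⟩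

theorem Ac_ne (hub : ∀ B : ℝ, ∃ t ∈ Ico (0:ℝ) 1, B < w t) (lam : ℝ) :
    {t | t ∈ Set.Ico (0:ℝ) 1 ∧ lam < w t}.Nonempty := by
  obtain ⟨t, h1, h2⟩ := hub lam
  exact ⟨t, h1, h2⟩

theorem Ac_nonneg (w : ℝ → ℝ) (lam : ℝ) : 0 ≤ Ac w lam := Real.sInf_nonneg fun _ h => h.1.1

theorem Ac_lt_one (hub : ∀ B : ℝ, ∃ t ∈ Ico (0:ℝ) 1, B < w t) (lam : ℝ) : Ac w lam < 1 := by
  obtain ⟨t, h1, h2⟩ := hub lam
  exact (csInf_le (Ac_bdd w lam) ⟨h1, h2⟩).trans_lt h1.2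

theorem Ac_mono (hub : ∀ B : ℝ, ∃ t ∈ Ico (0:ℝ) 1, B < w t) : Monotone (Ac w) := by
  intro a b hab
  exact csInf_le_csInf (Ac_bdd w a) (Ac_ne hub b) fun s hs => ⟨hs.1, hab.trans_lt hs.2⟩

theorem Ac_meas (hub : ∀ B : ℝ, ∃ t ∈ Ico (0:ℝ) 1, B < w t) : Measurable (Ac w) := (Ac_mono hub).measurable

theorem w_le_of_lt {lam t : ℝ} (ht : t ∈ Ico (0:ℝ) 1) (h : t < Ac w lam) : w t ≤ lam := by
  by_contra hc
  push Not at hc
  exact absurd (csInf_le (Ac_bdd w lam) ⟨ht, hc⟩) (not_le.mpr h)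

theorem Ac_le_of_lt {lam t : ℝ} (ht : t ∈ Ico (0:ℝ) 1) (h : lam < w t) : Ac w lam ≤ t :=
  csInf_le (Ac_bdd w lam) ⟨ht, h⟩

theorem lt_w_of_lt (hw : MonotoneOn w (Ico 0 1)) (hub : ∀ B : ℝ, ∃ t ∈ Ico (0:ℝ) 1, B < w t) {lam t : ℝ}
    (h : Ac w lam < t) (ht : t < 1) : lam < w t := by
  obtain ⟨s, hs, hst⟩ := exists_lt_of_csInf_lt (Ac_ne hub lam) h
  exact hs.2.trans_le (hw hs.1 ⟨hs.1.1.trans hst.le, ht⟩ hst.le)

/-- the levels under which the weight passes before `t` -/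
theorem set_sub (hw : MonotoneOn w (Ico 0 1)) (hub : ∀ B : ℝ, ∃ t ∈ Ico (0:ℝ) 1, B < w t) {t : ℝ} (ht : t < 1) :
    {lam : ℝ | 0 < lam ∧ Ac w lam < t} ⊆ Ioo 0 (w t) := fun _ h => ⟨h.1, lt_w_of_lt hw hub h.2 ht⟩

theorem sub_set {s t : ℝ} (hs : s ∈ Ico (0:ℝ) 1) (hst : s < t) :
    Ioo 0 (w s) ⊆ {lam : ℝ | 0 < lam ∧ Ac w lam < t} := fun _ h => ⟨h.1, (Ac_le_of_lt hs h.2).trans_lt hst⟩

theorem set_meas (hub : ∀ B : ℝ, ∃ t ∈ Ico (0:ℝ) 1, B < w t) (t : ℝ) :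
    MeasurableSet {lam : ℝ | 0 < lam ∧ Ac w lam < t} :=
  measurableSet_Ioi.inter (measurableSet_lt (Ac_meas hub) measurable_const)

theorem vol_le (hw : MonotoneOn w (Ico 0 1)) (hub : ∀ B : ℝ, ∃ t ∈ Ico (0:ℝ) 1, B < w t) {t : ℝ} (ht : t < 1) :
    volume {lam : ℝ | 0 < lam ∧ Ac w lam < t} ≤ ENNReal.ofReal (w t) := by
  refine (measure_mono (set_sub hw hub ht)).trans ?_
  rw [Real.volume_Ioo, sub_zero]

theorem vol_ge {s t : ℝ} (hs : s ∈ Ico (0:ℝ) 1) (hst : s < t) :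
    ENNReal.ofReal (w s) ≤ volume {lam : ℝ | 0 < lam ∧ Ac w lam < t} := by
  refine le_trans ?_ (measure_mono (sub_set hs hst))
  rw [Real.volume_Ioo, sub_zero]

/-- real form: the measure of the levels below is at most `w t` -/
theorem real_le (hw : MonotoneOn w (Ico 0 1)) (h0 : ∀ t ∈ Ico (0:ℝ) 1, 0 ≤ w t)
    (hub : ∀ B : ℝ, ∃ t ∈ Ico (0:ℝ) 1, B < w t) {t : ℝ} (ht0 : 0 ≤ t) (ht : t < 1) :
    volume.real {lam : ℝ | 0 < lam ∧ Ac w lam < t} ≤ w t :=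
  ENNReal.toReal_le_of_le_ofReal (h0 t ⟨ht0, ht⟩) (vol_le hw hub ht)

theorem fin_vol (hw : MonotoneOn w (Ico 0 1)) (hub : ∀ B : ℝ, ∃ t ∈ Ico (0:ℝ) 1, B < w t) {t : ℝ} (ht : t < 1) :
    volume {lam : ℝ | 0 < lam ∧ Ac w lam < t} ≠ ⊤ := ((vol_le hw hub ht).trans_lt ENNReal.ofReal_lt_top).ne

theorem real_ge (hw : MonotoneOn w (Ico 0 1))
    (hub : ∀ B : ℝ, ∃ t ∈ Ico (0:ℝ) 1, B < w t) {s t : ℝ} (hs : s ∈ Ico (0:ℝ) 1) (hst : s < t) (ht : t < 1) :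
    w s ≤ volume.real {lam : ℝ | 0 < lam ∧ Ac w lam < t} :=
  (ENNReal.ofReal_le_iff_le_toReal (fin_vol hw hub ht)).mp (vol_ge hs hst)

/-- growth of the weight at the edge -/
theorem w_bd (h0 : ∀ t ∈ Ico (0:ℝ) 1, 0 ≤ w t) (hw : MonotoneOn w (Ico 0 1)) {C : ℝ}
    (hC : ∀ N : ℕ, 1 ≤ N → w (1 - 1 / N) ≤ C * √N) {t : ℝ} (ht : t ∈ Ico (0:ℝ) 1) :
    w t ≤ 2 * C / √(1 - t) := by
  have h1 : 0 < 1 - t := by linarith [ht.2]
  have hC0 : 0 ≤ C := by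
    have := (h0 0 ⟨le_rfl, one_pos⟩).trans (by simpa using hC 1 le_rfl)
    exact this
  set N := ⌈1 / (1 - t)⌉₊ with hN
  have hN1 : 1 / (1 - t) ≤ N := Nat.le_ceil _
  have hN2 : (N : ℝ) < 1 / (1 - t) + 1 := Nat.ceil_lt_add_one (by positivity)
  have h11 : 1 ≤ 1 / (1 - t) := by
    rw [le_div_iff₀ h1]
    linarith [ht.1]
  have hN0 : (1 : ℝ) ≤ N := h11.trans hN1
  have hN3 : (1 : ℕ) ≤ N := by exact_mod_cast hN0
  have h2 : 1 / (N : ℝ) ≤ 1 - t := by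
    rw [div_le_iff₀ (by linarith)]
    rw [div_le_iff₀ h1] at hN1
    linarith
  have h3 : (1 - 1 / (N : ℝ)) ∈ Ico (0:ℝ) 1 := by
    have : 1 / (N : ℝ) ≤ 1 := by
      rw [div_le_iff₀ (by linarith)]
      linarith
    have : 0 < 1 / (N : ℝ) := by positivity
    constructor <;> linarith
  have h4 : w t ≤ C * √N := (hw ht h3 (by linarith)).trans (hC N hN3)
  refine h4.trans ?_
  have h5 : √(N : ℝ) ≤ 2 / √(1 - t) := by
    have h6 : (N : ℝ) ≤ (2 / √(1 - t)) ^ 2 := by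
      rw [div_pow, Real.sq_sqrt h1.le]
      have : (2 : ℝ) ^ 2 / (1 - t) = 4 * (1 / (1 - t)) := by ring
      rw [this]
      linarith
    calc √(N : ℝ) ≤ √((2 / √(1 - t)) ^ 2) := Real.sqrt_le_sqrt h6
      _ = 2 / √(1 - t) := Real.sqrt_sq (by positivity)
  calc C * √N ≤ C * (2 / √(1 - t)) := mul_le_mul_of_nonneg_left h5 hC0
    _ = 2 * C / √(1 - t) := by ring

theorem w_int (h0 : ∀ t ∈ Ico (0:ℝ) 1, 0 ≤ w t) (hw : MonotoneOn w (Ico 0 1)) {C : ℝ}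
    (hC : ∀ N : ℕ, 1 ≤ N → w (1 - 1 / N) ≤ C * √N) : IntegrableOn w (Ico (0:ℝ) 1) := by
  have h1 : IntegrableOn (fun t : ℝ => 2 * C * (1 - t) ^ (-(1:ℝ) / 2)) (Ico (0:ℝ) 1) := by
    have h2 : IntervalIntegrable (fun x : ℝ => x ^ (-(1:ℝ) / 2)) volume 0 1 :=
      intervalIntegral.intervalIntegrable_rpow' (by norm_num)
    have h3 := (h2.comp_sub_left 1).symm
    simp only [sub_zero, sub_self] at h3
    have h4 := (intervalIntegrable_iff_integrableOn_Ico_of_le zero_le_one).mp h3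
    exact h4.const_mul _
  refine h1.mono' (aemeasurable_restrict_of_monotoneOn measurableSet_Ico hw).aestronglyMeasurable ?_
  filter_upwards [ae_restrict_mem measurableSet_Ico] with t ht
  rw [Real.norm_eq_abs, abs_of_nonneg (h0 t ht)]
  refine (w_bd h0 hw hC ht).trans_eq ?_
  have h5 : 0 < 1 - t := by linarith [ht.2]
  rw [neg_div, Real.rpow_neg h5.le, ← Real.sqrt_eq_rpow, div_eq_mul_inv]

/-- the integral of the weight is the integral of the gap `1 - Ac` over the levels -/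
theorem lay_eq (hw : MonotoneOn w (Ico 0 1)) (hub : ∀ B : ℝ, ∃ t ∈ Ico (0:ℝ) 1, B < w t) :
    ∫⁻ lam in Ioi (0:ℝ), ENNReal.ofReal (1 - Ac w lam) = ∫⁻ t in Ico (0:ℝ) 1, ENNReal.ofReal (w t) := by
  have hAm := Ac_meas hub
  -- Tonelli for the set `Ac < t`
  have key : ∀ R : ℝ → ℝ → Prop, (MeasurableSet {p : ℝ × ℝ | R p.1 p.2}) →
      (∀ lam, ∫⁻ t in Ico (0:ℝ) 1, ({p : ℝ × ℝ | R p.1 p.2}.indicator 1 (lam, t) : ℝ≥0∞) =
        ENNReal.ofReal (1 - Ac w lam)) →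
      ∫⁻ lam in Ioi (0:ℝ), ENNReal.ofReal (1 - Ac w lam) =
        ∫⁻ t in Ico (0:ℝ) 1, volume {lam : ℝ | 0 < lam ∧ R lam t} := by
    intro R hR hf
    calc ∫⁻ lam in Ioi (0:ℝ), ENNReal.ofReal (1 - Ac w lam)
        = ∫⁻ lam in Ioi (0:ℝ), ∫⁻ t in Ico (0:ℝ) 1, ({p : ℝ × ℝ | R p.1 p.2}.indicator 1 (lam, t) : ℝ≥0∞) := by
          simp_rw [hf]
      _ = ∫⁻ t in Ico (0:ℝ) 1, ∫⁻ lam in Ioi (0:ℝ), ({p : ℝ × ℝ | R p.1 p.2}.indicator 1 (lam, t) : ℝ≥0∞) := by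
          apply lintegral_lintegral_swap
          exact (measurable_one.indicator hR).aemeasurable
      _ = ∫⁻ t in Ico (0:ℝ) 1, volume {lam : ℝ | 0 < lam ∧ R lam t} := by
          refine lintegral_congr fun t => ?_
          have hRt : MeasurableSet {lam : ℝ | R lam t} := hR.preimage (measurable_id.prodMk measurable_const)
          have e : (fun lam : ℝ => ({p : ℝ × ℝ | R p.1 p.2}.indicator 1 (lam, t) : ℝ≥0∞)) =
              {lam : ℝ | R lam t}.indicator 1 := by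
            funext lam
            simp only [Set.indicator, mem_setOf_eq]
            rfl
          rw [e, lintegral_indicator_one hRt, Measure.restrict_apply hRt]
          congr 1
          ext lam
          simp only [mem_inter_iff, mem_setOf_eq, mem_Ioi]
          exact and_comm
  have hA0 := Ac_nonneg w
  have hA1 := Ac_lt_one hub
  have m1 : MeasurableSet {p : ℝ × ℝ | Ac w p.1 < p.2} := measurableSet_lt (hAm.comp measurable_fst) measurable_snd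
  have m2 : MeasurableSet {p : ℝ × ℝ | Ac w p.1 ≤ p.2} := measurableSet_le (hAm.comp measurable_fst) measurable_snd
  have k1 := key (fun lam t => Ac w lam < t) m1 (by
    intro lam
    have e : (fun t : ℝ => ({p : ℝ × ℝ | Ac w p.1 < p.2}.indicator 1 (lam, t) : ℝ≥0∞)) =
        (Ioi (Ac w lam)).indicator 1 := by
      funext t
      simp only [Set.indicator, mem_setOf_eq, mem_Ioi]
      rfl
    rw [e, lintegral_indicator_one measurableSet_Ioi, Measure.restrict_apply measurableSet_Ioi]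
    have e2 : Ioi (Ac w lam) ∩ Ico 0 1 = Ioo (Ac w lam) 1 := by
      ext t
      simp only [mem_inter_iff, mem_Ioi, mem_Ico, mem_Ioo]
      exact ⟨fun h => ⟨h.1, h.2.2⟩, fun h => ⟨h.1, (hA0 lam).trans h.1.le, h.2⟩⟩
    rw [e2, Real.volume_Ioo])
  have k2 := key (fun lam t => Ac w lam ≤ t) m2 (by
    intro lam
    have e : (fun t : ℝ => ({p : ℝ × ℝ | Ac w p.1 ≤ p.2}.indicator 1 (lam, t) : ℝ≥0∞)) =
        (Ici (Ac w lam)).indicator 1 := by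
      funext t
      simp only [Set.indicator, mem_setOf_eq, mem_Ici]
      rfl
    rw [e, lintegral_indicator_one measurableSet_Ici, Measure.restrict_apply measurableSet_Ici]
    have e2 : Ici (Ac w lam) ∩ Ico 0 1 = Ico (Ac w lam) 1 := by
      ext t
      simp only [mem_inter_iff, mem_Ici, mem_Ico]
      exact ⟨fun h => ⟨h.1, h.2.2⟩, fun h => ⟨h.1, (hA0 lam).trans h.1, h.2⟩⟩
    rw [e2, Real.volume_Ico])
  apply le_antisymm
  · rw [k1]
    refine setLIntegral_mono' measurableSet_Ico fun t ht => ?_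
    exact vol_le hw hub ht.2
  · rw [k2]
    refine setLIntegral_mono' measurableSet_Ico fun t ht => ?_
    have : Ioo 0 (w t) ⊆ {lam : ℝ | 0 < lam ∧ Ac w lam ≤ t} := fun lam h => ⟨h.1, Ac_le_of_lt ht h.2⟩
    refine le_trans ?_ (measure_mono this)
    rw [Real.volume_Ioo, sub_zero]

theorem Ac_int (h0 : ∀ t ∈ Ico (0:ℝ) 1, 0 ≤ w t) (hw : MonotoneOn w (Ico 0 1))
    (hub : ∀ B : ℝ, ∃ t ∈ Ico (0:ℝ) 1, B < w t) {C : ℝ} (hC : ∀ N : ℕ, 1 ≤ N → w (1 - 1 / N) ≤ C * √N) :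
    IntegrableOn (fun lam => 1 - Ac w lam) (Ioi (0:ℝ)) := by
  have hi := w_int h0 hw hC
  refine ⟨(measurable_const.sub (Ac_meas hub)).aestronglyMeasurable, ?_⟩
  rw [hasFiniteIntegral_iff_ofReal (Eventually.of_forall fun lam => by
    have := Ac_lt_one hub lam
    show (0:ℝ) ≤ 1 - Ac w lam
    linarith), lay_eq hw hub]
  have h1 := hi.2
  rw [hasFiniteIntegral_iff_ofReal] at h1
  · exact h1
  · filter_upwards [ae_restrict_mem measurableSet_Ico] with t ht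
    exact h0 t ht

theorem Ac_int_eq (h0 : ∀ t ∈ Ico (0:ℝ) 1, 0 ≤ w t) (hw : MonotoneOn w (Ico 0 1))
    (hub : ∀ B : ℝ, ∃ t ∈ Ico (0:ℝ) 1, B < w t) :
    ∫ lam in Ioi (0:ℝ), (1 - Ac w lam) = ∫ t in Ico (0:ℝ) 1, w t := by
  have e1 : ∫ lam in Ioi (0:ℝ), (1 - Ac w lam) = (∫⁻ lam in Ioi (0:ℝ), ENNReal.ofReal (1 - Ac w lam)).toReal := by
    refine integral_eq_lintegral_of_nonneg_ae (f := fun lam => 1 - Ac w lam) (Eventually.of_forall fun lam => ?_)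
      (measurable_const.sub (Ac_meas hub)).aestronglyMeasurable
    have := Ac_lt_one hub lam
    show (0:ℝ) ≤ 1 - Ac w lam
    linarith
  have e2 : ∫ t in Ico (0:ℝ) 1, w t = (∫⁻ t in Ico (0:ℝ) 1, ENNReal.ofReal (w t)).toReal := by
    refine integral_eq_lintegral_of_nonneg_ae ?_
      (aemeasurable_restrict_of_monotoneOn measurableSet_Ico hw).aestronglyMeasurable
    filter_upwards [ae_restrict_mem measurableSet_Ico] with t ht
    exact h0 t ht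
  rw [e1, e2, lay_eq hw hub]

end Pool.Agent.Helper95.EW
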