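import Pool.Agent.Helper71.MR.Main
import Pool.Agent.Helper71.MR.Fin
import Pool.Agent.Helper95.EW.Lay

/-! # Edge weights (`MP_a499ba_nt`): the spike at the first jumps of the Mertens function -/

set_option autoImplicit false
open MeasureTheory Real Set Filter Topology
open Pool.Agent.Helper18.ES (S mu)
open Pool.Agent.Helper71.MR (gt gt_nonneg gt_zero gt_integrable gt_cont gt_le_one hh mm rr ms Qf Qf_lip ms_gt_int ms_meas)

namespace Pool.Agent.Helper95.EW

/-- the difference of `H` at the level `lam` -/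
noncomputable def Dl (H : ℝ → ℝ) (w : ℝ → ℝ) (y lam : ℝ) : ℝ := H y - √(Ac w lam) * H (y + Real.log (Ac w lam))

theorem S_zero {x : ℝ} (h : x < 1) : S mu x = 0 := by
  unfold S
  rw [Nat.floor_eq_zero.mpr h]
  simp

theorem mu_one : mu 1 = 1 := by simp [mu]

theorem mu_two : mu 2 = -1 := by
  unfold mu
  rw [ArithmeticFunction.moebius_apply_prime Nat.prime_two]
  norm_num

theorem S_one {x : ℝ} (h : 1 ≤ x) (h2 : x < 2) : S mu x = 1 := by
  unfold S
  have : ⌊x⌋₊ = 1 := by
    rw [Nat.floor_eq_iff (by linarith)]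
    norm_num
    exact ⟨h, h2⟩
  rw [this, Finset.Icc_self, Finset.sum_singleton, mu_one]

theorem S_two {x : ℝ} (h : 2 ≤ x) (h2 : x < 3) : S mu x = 0 := by
  unfold S
  have : ⌊x⌋₊ = 2 := by
    rw [Nat.floor_eq_iff (by linarith)]
    norm_num
    exact ⟨h, h2⟩
  rw [this, Finset.sum_Icc_succ_top (by norm_num), Finset.Icc_self, Finset.sum_singleton, mu_one, mu_two]
  norm_num

/-- the two places and signs of the spike -/
def Pl (σ u₀ : ℝ) : Prop := (σ = 1 ∧ u₀ = 0) ∨ (σ = -1 ∧ u₀ = Real.log 2)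

theorem exp_quarter : Real.exp (1 / 4) < 4 / 3 := by
  have h : Real.exp (1 / 4) = Real.exp (1 / 4) := rfl
  have h1 : Real.exp 1 < 2.7182818286 := Real.exp_one_lt_d9
  have h2 : Real.exp (1 / 4) ^ 4 = Real.exp 1 := by rw [← Real.exp_nat_mul]; norm_num
  by_contra hc
  push Not at hc
  have h3 : (4 / 3 : ℝ) ^ 4 ≤ Real.exp (1 / 4) ^ 4 := pow_le_pow_left₀ (by norm_num) hc 4
  rw [h2] at h3
  norm_num at h3 h1
  linarith

theorem exp_neg_half : (3 / 5 : ℝ) ≤ Real.exp (-(1 / 2)) := by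
  have h1 : Real.exp 1 < 2.7182818286 := Real.exp_one_lt_d9
  have h2 : Real.exp (-(1 / 2)) ^ 2 * Real.exp 1 = 1 := by
    rw [← Real.exp_nat_mul, ← Real.exp_add]
    norm_num
  have h3 := Real.exp_pos (-(1 / 2))
  by_contra hc
  push Not at hc
  have h4 : Real.exp (-(1 / 2)) ^ 2 < (3 / 5) ^ 2 := by
    exact pow_lt_pow_left₀ hc h3.le (by norm_num)
  nlinarith [Real.exp_pos 1]

/-- the jump -/
theorem jump {σ u₀ : ℝ} (hP : Pl σ u₀) {δ : ℝ} (hδ : δ ≤ 1 / 4) {u : ℝ} (hu0 : 0 < u) (huδ : u < δ) {a : ℝ}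
    (ha : Real.exp (-(1 / 2)) ≤ a) (ha1 : a < 1) :
    (if a < Real.exp (-δ) then 1 else 0 : ℝ) ≤
      σ * (S mu (Real.exp (u₀ + u)) - S mu (a * Real.exp (u₀ + u))) := by
  have ha0 := exp_neg_half
  have hq := exp_quarter
  have e1 : 1 < Real.exp u := Real.one_lt_exp_iff.mpr hu0
  have e2 : Real.exp u < 4 / 3 := (Real.exp_lt_exp.mpr (by linarith)).trans hq
  have e3 : a < Real.exp (-δ) → a * Real.exp u < 1 := by
    intro h
    have : a * Real.exp u < Real.exp (-δ) * Real.exp δ :=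
      mul_lt_mul' h.le (Real.exp_lt_exp.mpr huδ) (Real.exp_pos _).le (Real.exp_pos _)
    rwa [← Real.exp_add, neg_add_cancel, Real.exp_zero] at this
  have e4 : 3 / 5 < a * Real.exp u := by nlinarith
  have e5 : a * Real.exp u < 4 / 3 := by nlinarith
  rcases hP with ⟨rfl, rfl⟩ | ⟨rfl, rfl⟩
  · rw [zero_add, S_one e1.le (by linarith), one_mul]
    rcases lt_or_ge (a * Real.exp u) 1 with h | h
    · rw [S_zero h]
      split_ifs <;> norm_num
    · rw [S_one h (by linarith), if_neg (fun h' => absurd (e3 h') (not_lt.mpr h))]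
      norm_num
  · rw [Real.exp_add, Real.exp_log two_pos, S_two (by linarith) (by linarith),
      show a * (2 * Real.exp u) = 2 * (a * Real.exp u) by ring]
    rcases lt_or_ge (a * Real.exp u) 1 with h | h
    · rw [S_one (by linarith) (by linarith)]
      split_ifs <;> norm_num
    · rw [S_two (by linarith) (by linarith), if_neg (fun h' => absurd (e3 h') (not_lt.mpr h))]
      norm_num

/-- the part of the sums -/
theorem mm_diff {a : ℝ} (ha : 0 < a) (t : ℝ) :
    mm t - √a * mm (t + Real.log a) = Real.exp (-t / 2) * (S mu (Real.exp t) - S mu (a * Real.exp t)) := by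
  unfold mm
  have h1 : Real.exp (t + Real.log a) = a * Real.exp t := by rw [Real.exp_add, Real.exp_log ha]; ring
  have h2 : √a * Real.exp (-(t + Real.log a) / 2) = Real.exp (-t / 2) := by
    have h3 : √a = Real.exp (Real.log a / 2) := by
      rw [Real.sqrt_eq_rpow, Real.rpow_def_of_pos ha]
      ring_nf
    rw [h3, ← Real.exp_add]
    ring_nf
  rw [h1]
  calc S mu (Real.exp t) * Real.exp (-t / 2) - √a * (S mu (a * Real.exp t) * Real.exp (-(t + Real.log a) / 2))
      = S mu (Real.exp t) * Real.exp (-t / 2) - S mu (a * Real.exp t) * (√a * Real.exp (-(t + Real.log a) / 2)) := by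
        ring
    _ = _ := by rw [h2]; ring

/-- the dual part -/
theorem rr_diff : ∃ C : ℝ, 0 ≤ C ∧ ∀ a t : ℝ, Real.exp (-(1 / 2)) ≤ a → a < 1 → 0 ≤ t →
    |rr t - √a * rr (t + Real.log a)| ≤ C * (1 - a) := by
  refine ⟨2 * (2 * Real.pi * 2 * ∑' k : ℕ, 1 / (k : ℝ) ^ 2), by positivity, fun a t ha ha1 ht => ?_⟩
  have ha0 : 0 < a := (Real.exp_pos _).trans_le ha
  have ha35 := exp_neg_half
  have h1 : Real.exp (-(t + Real.log a)) = Real.exp (-t) / a := by
    rw [neg_add, Real.exp_add, Real.exp_neg (Real.log a), Real.exp_log ha0]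
    rfl
  have h2 : √a * Real.exp (-(t + Real.log a) / 2) = Real.exp (-t / 2) := by
    have h3 : √a = Real.exp (Real.log a / 2) := by
      rw [Real.sqrt_eq_rpow, Real.rpow_def_of_pos ha0]
      ring_nf
    rw [h3, ← Real.exp_add]
    ring_nf
  have h3 : rr t - √a * rr (t + Real.log a) = 2 * Real.exp (-t / 2) * (Qf (Real.exp (-t) / a) - Qf (Real.exp (-t))) := by
    unfold rr
    rw [h1]
    calc (2 - 2 * Qf (Real.exp (-t))) * Real.exp (-t / 2) -
          √a * ((2 - 2 * Qf (Real.exp (-t) / a)) * Real.exp (-(t + Real.log a) / 2))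
        = (2 - 2 * Qf (Real.exp (-t))) * Real.exp (-t / 2) -
          (2 - 2 * Qf (Real.exp (-t) / a)) * (√a * Real.exp (-(t + Real.log a) / 2)) := by ring
      _ = _ := by rw [h2]; ring
  have e1 : Real.exp (-t / 2) ≤ 1 := Real.exp_le_one_iff.mpr (by linarith)
  have e2 : Real.exp (-t) ≤ 1 := Real.exp_le_one_iff.mpr (by linarith)
  have e3 := Real.exp_pos (-t / 2)
  have e4 := Real.exp_pos (-t)
  have hl := Qf_lip (a := Real.exp (-t) / a) (b := Real.exp (-t)) (by positivity) e4.le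
  have h4 : |Real.exp (-t) / a - Real.exp (-t)| ≤ 2 * (1 - a) := by
    have h5 : Real.exp (-t) / a - Real.exp (-t) = Real.exp (-t) * ((1 - a) / a) := by field_simp
    have h6 : (1 - a) / a ≤ 2 * (1 - a) := by
      rw [div_le_iff₀ ha0]
      nlinarith
    have h7 : 0 ≤ (1 - a) / a := div_nonneg (by linarith) ha0.le
    rw [h5, abs_of_nonneg (mul_nonneg e4.le h7)]
    nlinarith
  have hS : 0 ≤ ∑' k : ℕ, 1 / (k : ℝ) ^ 2 := tsum_nonneg fun _ => by positivity
  rw [h3, abs_mul, abs_of_pos (by positivity)]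
  calc 2 * Real.exp (-t / 2) * |Qf (Real.exp (-t) / a) - Qf (Real.exp (-t))|
      ≤ 2 * 1 * (2 * Real.pi * (2 * (1 - a)) * ∑' k : ℕ, 1 / (k : ℝ) ^ 2) := by
        apply mul_le_mul (by linarith) _ (abs_nonneg _) (by norm_num)
        refine hl.trans ?_
        apply mul_le_mul_of_nonneg_right _ hS
        exact mul_le_mul_of_nonneg_left h4 (by positivity)
    _ = _ := by ring

/-- the lower bound at one level -/
theorem level : ∃ C : ℝ, 0 ≤ C ∧ ∀ σ u₀ : ℝ, Pl σ u₀ → ∀ δ : ℝ, 0 < δ → δ ≤ 1 / 4 → ∀ a : ℝ,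
    Real.exp (-(1 / 2)) ≤ a → a < 1 →
      (1 / 2 * (if a < Real.exp (-δ) then 1 else 0) - C * (1 - a)) * ∫ u, gt δ u ≤
        σ * (hh δ u₀ - √a * hh δ (u₀ + Real.log a)) := by
  obtain ⟨C, hC, hr⟩ := rr_diff
  refine ⟨C, hC, fun σ u₀ hP δ hδ hδ4 a ha ha1 => ?_⟩
  have ha0 : 0 < a := (Real.exp_pos _).trans_le ha
  have hδ1 : δ ≤ 1 := by linarith
  have hi : ∀ y : ℝ, Integrable (fun u : ℝ => ms (y + u) * gt δ u) := fun y => by
    have := ms_gt_int hδ1 y 0
    simpa using this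
  have hσ : |σ| = 1 := by
    rcases hP with ⟨rfl, -⟩ | ⟨rfl, -⟩ <;> norm_num
  have hu₀ : 0 ≤ u₀ ∧ u₀ ≤ 3 / 4 := by
    rcases hP with ⟨-, rfl⟩ | ⟨-, rfl⟩
    · norm_num
    · exact ⟨Real.log_nonneg (by norm_num), by linarith [Real.log_two_lt_d9]⟩
  have e : σ * (hh δ u₀ - √a * hh δ (u₀ + Real.log a)) =
      ∫ u, σ * (ms (u₀ + u) - √a * ms (u₀ + Real.log a + u)) * gt δ u := by
    unfold hh
    rw [← integral_const_mul (√a), ← integral_sub (hi _) ((hi _).const_mul _), ← integral_const_mul]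
    apply integral_congr_ae
    filter_upwards with u
    ring
  rw [e, ← integral_const_mul]
  apply integral_mono ((gt_integrable δ).const_mul _)
  · have h1 := (((hi u₀).sub ((hi (u₀ + Real.log a)).const_mul (√a))).const_mul σ)
    refine h1.congr ?_
    filter_upwards with u
    simp only [Pi.sub_apply]
    ring
  · intro u
    show (1 / 2 * (if a < Real.exp (-δ) then 1 else 0) - C * (1 - a)) * gt δ u ≤
      σ * (ms (u₀ + u) - √a * ms (u₀ + Real.log a + u)) * gt δ u
    rcases le_or_gt u 0 with h | h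
    · rw [gt_zero (Or.inl h)]
      simp
    rcases le_or_gt δ u with h' | h'
    · rw [gt_zero (Or.inr h')]
      simp
    apply mul_le_mul_of_nonneg_right _ (gt_nonneg δ u)
    have h3 := jump hP hδ4 h h' ha ha1
    have h4 := mm_diff ha0 (u₀ + u)
    have h5 := hr a (u₀ + u) ha ha1 (by linarith [hu₀.1])
    have h6 : ms (u₀ + u) - √a * ms (u₀ + Real.log a + u) =
        (mm (u₀ + u) - √a * mm (u₀ + u + Real.log a)) + (rr (u₀ + u) - √a * rr (u₀ + u + Real.log a)) := by
      unfold ms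
      rw [show u₀ + Real.log a + u = u₀ + u + Real.log a by ring]
      ring
    have h7 : -(C * (1 - a)) ≤ σ * (rr (u₀ + u) - √a * rr (u₀ + u + Real.log a)) := by
      have := neg_abs_le (σ * (rr (u₀ + u) - √a * rr (u₀ + u + Real.log a)))
      rw [abs_mul, hσ, one_mul] at this
      linarith
    have h8 : (1 / 2 : ℝ) ≤ Real.exp (-(u₀ + u) / 2) := by
      have : Real.exp (-(1 / 2)) ≤ Real.exp (-(u₀ + u) / 2) := Real.exp_le_exp.mpr (by linarith [hu₀.2])
      linarith [exp_neg_half]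
    have h9 : (0 : ℝ) ≤ (if a < Real.exp (-δ) then 1 else 0) := by split_ifs <;> norm_num
    rw [h6, h4, mul_add]
    have h10 : 1 / 2 * (if a < Real.exp (-δ) then 1 else 0 : ℝ) ≤
        σ * (Real.exp (-(u₀ + u) / 2) * (S mu (Real.exp (u₀ + u)) - S mu (a * Real.exp (u₀ + u)))) := by
      calc 1 / 2 * (if a < Real.exp (-δ) then 1 else 0 : ℝ)
          ≤ Real.exp (-(u₀ + u) / 2) * (σ * (S mu (Real.exp (u₀ + u)) - S mu (a * Real.exp (u₀ + u)))) :=
            mul_le_mul h8 h3 h9 (Real.exp_pos _).le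
        _ = _ := by ring
    linarith

end Pool.Agent.Helper95.EW
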