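import Pool.Agent.Helper95.EW.Near

/-! # Edge weights (`MP_a499ba_nt`): the smoothed Mertens function, and the contradiction -/

set_option autoImplicit false
open MeasureTheory Real Set Filter Topology
open Pool.Agent.Helper18.ES (S mu)
open Pool.Agent.Helper71.MR (gt gt_nonneg gt_zero gt_integrable gt_cont gt_le_one gt_int_pos hh mm rr ms ms_gt_int
  ms_meas ms_bd rr_bd rr_meas rr_cont A0 A0_pos hh_cont C54 C54_nonneg)

namespace Pool.Agent.Helper95.EW

variable {w : ℝ → ℝ}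

/-- the smoothed normalised Mertens function -/
noncomputable def hm (δ y : ℝ) : ℝ := ∫ u : ℝ, mm (y + u) * gt δ u

/-- the smoothed dual part -/
noncomputable def rl (δ y : ℝ) : ℝ := ∫ u : ℝ, rr (y + u) * gt δ u

theorem rl_int {δ : ℝ} (y : ℝ) : Integrable (fun u : ℝ => rr (y + u) * gt δ u) := by
  have hs : HasCompactSupport (fun u : ℝ => rr (y + u) * gt δ u) := by
    apply HasCompactSupport.intro (isCompact_Icc (a := (0:ℝ)) (b := |δ|))
    intro x hx
    rw [gt_zero, mul_zero]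
    by_contra h
    push Not at h
    exact hx ⟨h.1.le, h.2.le.trans (le_abs_self _)⟩
  have hc : Continuous (fun u : ℝ => rr (y + u) * gt δ u) :=
    (rr_cont.comp (continuous_const.add continuous_id)).mul (gt_cont δ)
  exact hc.integrable_of_hasCompactSupport hs

theorem ms_int0 {δ : ℝ} (hδ : δ ≤ 1) (y : ℝ) : Integrable (fun u : ℝ => ms (y + u) * gt δ u) := by
  have := ms_gt_int hδ y 0
  simpa using this

theorem hm_eq {δ : ℝ} (hδ : δ ≤ 1) (y : ℝ) : hm δ y = hh δ y - rl δ y := by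
  unfold hm hh rl
  rw [← integral_sub (ms_int0 hδ y) (rl_int y)]
  apply integral_congr_ae
  filter_upwards with u
  unfold ms
  ring

theorem Dl_hm {δ : ℝ} (hδ : δ ≤ 1) (w : ℝ → ℝ) (y lam : ℝ) :
    Dl (hm δ) w y lam = Dl (hh δ) w y lam - Dl (rl δ) w y lam := by
  unfold Dl
  rw [hm_eq hδ, hm_eq hδ]
  ring

/-- the smoothed dual part is bounded to the right -/
theorem rl_bd : ∃ C : ℝ, 0 ≤ C ∧ ∀ δ y : ℝ, 0 ≤ y → |rl δ y| ≤ C * ∫ u, gt δ u := by
  have hC := C54_nonneg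
  refine ⟨(2 + 2 * C54) * 2, by positivity, fun δ y hy => ?_⟩
  unfold rl
  rw [← integral_const_mul, ← Real.norm_eq_abs]
  apply norm_integral_le_of_norm_le ((gt_integrable δ).const_mul _)
  filter_upwards with u
  rw [norm_mul, Real.norm_eq_abs, Real.norm_of_nonneg (gt_nonneg _ _)]
  rcases le_or_gt u 0 with h | h
  · rw [gt_zero (Or.inl h)]
    simp
  · apply mul_le_mul_of_nonneg_right _ (gt_nonneg δ u)
    refine (rr_bd (y + u)).trans ?_
    apply mul_le_mul_of_nonneg_left _ (by positivity)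
    have h1 : Real.exp (-(y + u) / 2) ≤ 1 := Real.exp_le_one_iff.mpr (by linarith)
    have h2 : Real.exp (-(3 * (y + u) / 4)) ≤ 1 := Real.exp_le_one_iff.mpr (by linarith)
    linarith

/-- the difference of the dual part -/
theorem Dl_rl_bd : ∃ C : ℝ, 0 ≤ C ∧ ∀ (w : ℝ → ℝ) (δ y lam : ℝ), (∀ B : ℝ, ∃ t ∈ Ico (0:ℝ) 1, B < w t) → 0 ≤ y →
    Real.exp (-(1 / 2)) ≤ Ac w lam → |Dl (rl δ) w y lam| ≤ C * (1 - Ac w lam) * ∫ u, gt δ u := by
  obtain ⟨C, hC, hr⟩ := rr_diff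
  refine ⟨C, hC, fun w δ y lam hub hy h => ?_⟩
  have ha1 := Ac_lt_one hub lam
  have e : Dl (rl δ) w y lam = ∫ u, (rr (y + u) - √(Ac w lam) * rr (y + u + Real.log (Ac w lam))) * gt δ u := by
    unfold Dl rl
    rw [← integral_const_mul (√(Ac w lam)), ← integral_sub (rl_int y) ((rl_int _).const_mul _)]
    apply integral_congr_ae
    filter_upwards with u
    rw [show y + Real.log (Ac w lam) + u = y + u + Real.log (Ac w lam) by ring]
    ring
  rw [e, ← integral_const_mul, ← Real.norm_eq_abs]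
  apply norm_integral_le_of_norm_le ((gt_integrable δ).const_mul _)
  filter_upwards with u
  rw [norm_mul, Real.norm_eq_abs, Real.norm_of_nonneg (gt_nonneg _ _)]
  rcases le_or_gt u 0 with h' | h'
  · rw [gt_zero (Or.inl h')]
    simp
  · exact mul_le_mul_of_nonneg_right (hr _ _ h ha1 (by linarith)) (gt_nonneg δ u)

/-- the smoothed function at the two places -/
theorem hh_pl : ∃ C : ℝ, 0 ≤ C ∧ ∀ σ u₀ δ : ℝ, Pl σ u₀ → δ ≤ 1 → |hh δ u₀| ≤ C * ∫ u, gt δ u := by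
  have hA := A0_pos
  refine ⟨A0 * Real.exp 2, by positivity, fun σ u₀ δ hP hδ => ?_⟩
  have hu₀ : 0 ≤ u₀ ∧ u₀ ≤ 1 := by
    rcases hP with ⟨-, rfl⟩ | ⟨-, rfl⟩
    · norm_num
    · exact ⟨Real.log_nonneg (by norm_num), by linarith [Real.log_two_lt_d9]⟩
  unfold hh
  rw [← integral_const_mul, ← Real.norm_eq_abs]
  apply norm_integral_le_of_norm_le ((gt_integrable δ).const_mul _)
  filter_upwards with u
  rw [norm_mul, Real.norm_eq_abs, Real.norm_of_nonneg (gt_nonneg _ _)]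
  rcases le_or_gt u 0 with h | h
  · rw [gt_zero (Or.inl h)]
    simp
  rcases le_or_gt δ u with h' | h'
  · rw [gt_zero (Or.inr h')]
    simp
  apply mul_le_mul_of_nonneg_right _ (gt_nonneg δ u)
  refine (ms_bd (u₀ + u)).trans ?_
  apply mul_le_mul_of_nonneg_left _ hA.le
  apply Real.exp_le_exp.mpr
  rw [abs_of_nonneg (by linarith)]
  linarith

/-- one-sided bound of the smoothed function -/
theorem hm_le {σ K : ℝ} (_hσ : |σ| = 1) (hK : ∀ x, σ * mm x ≤ K) {δ : ℝ} (hδ : δ ≤ 1) (y : ℝ) :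
    σ * hm δ y ≤ K * ∫ u, gt δ u := by
  have hi : Integrable (fun u : ℝ => mm (y + u) * gt δ u) := by
    refine ((ms_int0 hδ y).sub (rl_int (δ := δ) y)).congr ?_
    filter_upwards with u
    simp only [Pi.sub_apply]
    unfold ms
    ring
  unfold hm
  rw [← integral_const_mul, ← integral_const_mul]
  refine integral_mono (hi.const_mul _) ((gt_integrable δ).const_mul _) fun u => ?_
  show σ * (mm (y + u) * gt δ u) ≤ K * gt δ u
  rw [← mul_assoc]
  exact mul_le_mul_of_nonneg_right (hK _) (gt_nonneg δ u)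

/-- **the contradiction**: the weighted sums cannot be bounded on one side -/
theorem contra (h0 : ∀ t ∈ Ico (0:ℝ) 1, 0 ≤ w t) (hw : MonotoneOn w (Ico 0 1))
    (hub : ∀ B : ℝ, ∃ t ∈ Ico (0:ℝ) 1, B < w t) {Cw : ℝ} (hC : ∀ N : ℕ, 1 ≤ N → w (1 - 1 / N) ≤ Cw * √N)
    {σ u₀ K K₁ : ℝ} (hP : Pl σ u₀) (hK0 : 0 ≤ K) (hK : ∀ x, σ * mm x ≤ K)
    (hτ : ∀ δ : ℝ, 0 < δ → δ ≤ 1 / 4 → ∃ τ : ℕ → ℝ, ∃ B : ℝ, (∀ᶠ n in atTop, 0 ≤ τ n) ∧
      (∀ t : ℝ, |t| ≤ 2 → Tendsto (fun n => hh δ (τ n + t)) atTop (𝓝 (hh δ t))) ∧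
      (∀ᶠ n in atTop, ∀ t t' : ℝ, |t| ≤ 2 → |t'| ≤ 2 → |t - t'| ≤ 1 →
        |hh δ (τ n + t) - hh δ (τ n + t')| ≤ B * |t - t'|) ∧
      (∀ᶠ n in atTop, IntegrableOn (Dl (hm δ) w (τ n + u₀)) (Ioi 0) ∧
        σ * ∫ lam in Ioi (0:ℝ), Dl (hm δ) w (τ n + u₀) lam ≤ K₁ * ∫ u, gt δ u)) : False := by
  obtain ⟨C₁, hC₁, hrl⟩ := rl_bd
  obtain ⟨C₂, hC₂, hDrl⟩ := Dl_rl_bd
  obtain ⟨C₃, hC₃, hpl⟩ := hh_pl
  obtain ⟨C₄, hC₄, hsp⟩ := spike
  have hσ : |σ| = 1 := by
    rcases hP with ⟨rfl, -⟩ | ⟨rfl, -⟩ <;> norm_num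
  have hu₀ : 0 ≤ u₀ ∧ u₀ ≤ 1 := by
    rcases hP with ⟨-, rfl⟩ | ⟨-, rfl⟩
    · norm_num
    · exact ⟨Real.log_nonneg (by norm_num), by linarith [Real.log_two_lt_d9]⟩
  have hwh := h0 _ half_mem
  set Wh := w (Real.exp (-(1 / 2))) with hWh
  set I₀ := ∫ t in Ico (0:ℝ) 1, w t with hI₀
  have hgi := gap_int h0 hw hub hC
  have hgap : ∫ lam in Nr w, (1 - Ac w lam) ≤ I₀ := by
    rw [hI₀, ← Ac_int_eq h0 hw hub]
    refine setIntegral_mono_set (Ac_int h0 hw hub hC) ?_ (Eventually.of_forall fun lam h => h.1)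
    exact Eventually.of_forall fun lam => by
      have := Ac_lt_one hub lam
      show (0:ℝ) ≤ 1 - Ac w lam
      linarith
  -- the bound for one `δ`
  have key : ∀ δ : ℝ, 0 < δ → δ ≤ 1 / 4 →
      w (Real.exp (-(2 * δ))) ≤ 2 * (K₁ + Wh * (C₃ + C₁ + K) + C₂ * I₀ + C₄ * I₀) + Wh := by
    intro δ hδ hδ4
    have hδ1 : δ ≤ 1 := by linarith
    obtain ⟨τ, B₁, hτ0, hlim, hbd₁, hint⟩ := hτ δ hδ hδ4
    have hH : Tendsto (fun n => hh δ (τ n + u₀)) atTop (𝓝 (hh δ u₀)) :=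
      hlim u₀ (by rw [abs_le]; constructor <;> linarith [hu₀.1, hu₀.2])
    obtain ⟨B, hBdef⟩ : ∃ B : ℝ, B = max B₁ (|hh δ u₀| + 1) := ⟨_, rfl⟩
    have hbd : ∀ᶠ n in atTop, |hh δ (τ n + u₀)| ≤ B ∧
        ∀ t : ℝ, -(1 / 2) ≤ t → t ≤ 0 → |hh δ (τ n + u₀) - hh δ (τ n + u₀ + t)| ≤ B * |t| := by
      have e1 : ∀ᶠ n in atTop, |hh δ (τ n + u₀)| < |hh δ u₀| + 1 := hH.abs.eventually_lt_const (by linarith)
      filter_upwards [e1, hbd₁] with n h1 h2
      refine ⟨h1.le.trans (hBdef ▸ le_max_right _ _), fun t h3 h4 => ?_⟩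
      have := h2 u₀ (u₀ + t) (by rw [abs_le]; constructor <;> linarith [hu₀.1, hu₀.2])
        (by rw [abs_le]; constructor <;> linarith [hu₀.1, hu₀.2]) (by rw [abs_le]; constructor <;> linarith)
      rw [show u₀ - (u₀ + t) = -t by ring, abs_neg, ← add_assoc] at this
      exact this.trans (mul_le_mul_of_nonneg_right (hBdef ▸ le_max_left _ _) (abs_nonneg _))
    have hI : 0 < ∫ u, gt δ u := gt_int_pos hδ
    set I := ∫ u, gt δ u with hIdef
    -- the limit of the near part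
    have hN := Dl_lim (w := w) (Hn := fun _ => hh δ) (H := hh δ) (yn := fun n => τ n + u₀) (y := u₀) (B := B)
      (fun _ => (hh_cont hδ1).measurable) h0 hw hub hC
      (hbd.mono fun n hn => hn.1) (hbd.mono fun n hn => hn.2)
      (by
        intro t h1 h2
        have := hlim (u₀ + t) (by rw [abs_le]; constructor <;> linarith [hu₀.1, hu₀.2])
        refine this.congr fun n => ?_
        rw [add_assoc])
    -- inequality for large `n`
    have hev : ∀ᶠ n in atTop, -(Wh * (|hh δ (τ n + u₀)| + C₁ * I + K * I)) - C₂ * I₀ * I +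
        σ * ∫ lam in Nr w, Dl (hh δ) w (τ n + u₀) lam ≤ K₁ * I := by
      filter_upwards [hτ0, hbd, hint] with n h1 h2 h3
      have hy : 0 ≤ τ n + u₀ := by linarith [hu₀.1]
      obtain ⟨h4, h5⟩ := h3
      have iN : IntegrableOn (Dl (hm δ) w (τ n + u₀)) (Nr w) := h4.mono_set fun _ h => h.1
      have iF : IntegrableOn (Dl (hm δ) w (τ n + u₀)) (Fr w) := h4.mono_set fun _ h => h.1
      rw [Nr_union_Fr w, setIntegral_union (Nr_disj_Fr w) (Fr_meas hub) iN iF, mul_add] at h5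
      have h6 := far (H := hm δ) (σ := σ) (y := τ n + u₀) (B := K * I) hσ (mul_nonneg hK0 hI.le)
        (fun x => hm_le hσ hK hδ1 x) h0 hw hub
      have h7 : |hm δ (τ n + u₀)| ≤ |hh δ (τ n + u₀)| + C₁ * I := by
        rw [hm_eq hδ1]
        refine (abs_sub _ _).trans ?_
        have := hrl δ (τ n + u₀) hy
        linarith
      have h8 : Wh * (|hm δ (τ n + u₀)| + K * I) ≤ Wh * (|hh δ (τ n + u₀)| + C₁ * I + K * I) :=
        mul_le_mul_of_nonneg_left (by linarith) hwh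
      -- near part
      have iH : IntegrableOn (Dl (hh δ) w (τ n + u₀)) (Nr w) :=
        Dl_int (hh_cont hδ1).measurable h0 hw hub hC (B := B) h2.1 h2.2
      have h9 : (σ * ∫ lam in Nr w, Dl (hh δ) w (τ n + u₀) lam) - C₂ * I₀ * I ≤
          σ * ∫ lam in Nr w, Dl (hm δ) w (τ n + u₀) lam := by
        have h10 : ∫ lam in Nr w, (σ * Dl (hh δ) w (τ n + u₀) lam - C₂ * (1 - Ac w lam) * I) ≤
            ∫ lam in Nr w, σ * Dl (hm δ) w (τ n + u₀) lam := by
          refine setIntegral_mono_on ((iH.const_mul _).sub ((hgi.const_mul _).mul_const _)) (iN.const_mul _)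
            (Nr_meas hub) fun lam hlam => ?_
          have h11 := hDrl w δ (τ n + u₀) lam hub hy hlam.2
          rw [Dl_hm hδ1, mul_sub]
          have h12 : σ * Dl (rl δ) w (τ n + u₀) lam ≤ |Dl (rl δ) w (τ n + u₀) lam| := by
            have := le_abs_self (σ * Dl (rl δ) w (τ n + u₀) lam)
            rwa [abs_mul, hσ, one_mul] at this
          linarith
        rw [integral_sub (iH.const_mul _) ((hgi.const_mul _).mul_const _), integral_const_mul, integral_mul_const,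
          integral_const_mul, integral_const_mul] at h10
        have h13 : C₂ * (∫ lam in Nr w, (1 - Ac w lam)) * I ≤ C₂ * I₀ * I :=
          mul_le_mul_of_nonneg_right (mul_le_mul_of_nonneg_left hgap hC₂) hI.le
        linarith
      linarith
    -- the limit
    have hlim2 : Tendsto (fun n => -(Wh * (|hh δ (τ n + u₀)| + C₁ * I + K * I)) - C₂ * I₀ * I +
        σ * ∫ lam in Nr w, Dl (hh δ) w (τ n + u₀) lam) atTop
        (𝓝 (-(Wh * (|hh δ u₀| + C₁ * I + K * I)) - C₂ * I₀ * I + σ * ∫ lam in Nr w, Dl (hh δ) w u₀ lam)) :=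
      ((((hH.abs.add_const _).add_const _).const_mul _).neg.sub_const _).add (hN.const_mul _)
    have h14 := le_of_tendsto hlim2 hev
    have h15 := hsp w σ u₀ δ Cw hP hδ hδ4 h0 hw hub hC
    have h16 := mul_le_mul_of_nonneg_left (hpl σ u₀ δ hP hδ1) hwh
    rw [← hIdef] at h15 h16
    rw [← hWh, ← hI₀] at h15
    have h17 : (1 / 2 * (w (Real.exp (-(2 * δ))) - Wh) - C₄ * I₀) * I ≤
        (K₁ + Wh * (C₃ + C₁ + K) + C₂ * I₀) * I := by
      linarith
    have h18 := le_of_mul_le_mul_right h17 hI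
    linarith
  -- the weight is bounded
  set R := 2 * (K₁ + Wh * (C₃ + C₁ + K) + C₂ * I₀ + C₄ * I₀) + Wh with hR
  obtain ⟨t, ht, htR⟩ := hub R
  -- `δ` with `t ≤ exp (-2 δ)`
  have h1t : 0 < 1 - t := by linarith [ht.2]
  set δ := min (1 / 4) ((1 - t) / 2) with hδdef
  have hδ0 : 0 < δ := lt_min (by norm_num) (by linarith)
  have hδt : t ≤ Real.exp (-(2 * δ)) := by
    have h1 := Real.add_one_le_exp (-(2 * δ))
    have h2 : δ ≤ (1 - t) / 2 := min_le_right _ _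
    linarith
  have h2 : Real.exp (-(2 * δ)) ∈ Ico (0:ℝ) 1 := ⟨(Real.exp_pos _).le, Real.exp_lt_one_iff.mpr (by linarith)⟩
  have h3 := hw ht h2 hδt
  have h4 := key δ hδ0 (min_le_left _ _)
  linarith

end Pool.Agent.Helper95.EW
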