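import Pool.Agent.Helper95.EW.Spike

/-! # Edge weights (`MP_a499ba_nt`): the near and the far levels -/

set_option autoImplicit false
open MeasureTheory Real Set Filter Topology
open Pool.Agent.Helper18.ES (S mu)
open Pool.Agent.Helper71.MR (gt gt_nonneg gt_zero gt_integrable gt_cont gt_le_one hh mm rr ms ms_gt_int ms_meas hh_cont
  hh_lip_wt hh_bd_wt wt)

namespace Pool.Agent.Helper95.EW

variable {w : ℝ → ℝ}

/-- the levels near the edge -/
def Nr (w : ℝ → ℝ) : Set ℝ := {lam | 0 < lam ∧ Real.exp (-(1 / 2)) ≤ Ac w lam}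

/-- the levels far from the edge -/
def Fr (w : ℝ → ℝ) : Set ℝ := {lam | 0 < lam ∧ Ac w lam < Real.exp (-(1 / 2))}

theorem Nr_meas (hub : ∀ B : ℝ, ∃ t ∈ Ico (0:ℝ) 1, B < w t) : MeasurableSet (Nr w) :=
  measurableSet_Ioi.inter (measurableSet_le measurable_const (Ac_meas hub))

theorem Fr_meas (hub : ∀ B : ℝ, ∃ t ∈ Ico (0:ℝ) 1, B < w t) : MeasurableSet (Fr w) := set_meas hub _

theorem Nr_union_Fr (w : ℝ → ℝ) : Ioi (0:ℝ) = Nr w ∪ Fr w := by
  ext lam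
  simp only [mem_Ioi, mem_union, Nr, Fr, mem_setOf_eq]
  constructor
  · intro h
    rcases le_or_gt (Real.exp (-(1 / 2))) (Ac w lam) with h1 | h1
    · exact Or.inl ⟨h, h1⟩
    · exact Or.inr ⟨h, h1⟩
  · rintro (h | h)
    · exact h.1
    · exact h.1

theorem Nr_disj_Fr (w : ℝ → ℝ) : Disjoint (Nr w) (Fr w) := by
  rw [Set.disjoint_left]
  intro lam h1 h2
  exact absurd h1.2 (not_le.mpr h2.2)

theorem half_mem : Real.exp (-(1 / 2)) ∈ Ico (0:ℝ) 1 :=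
  ⟨(Real.exp_pos _).le, Real.exp_lt_one_iff.mpr (by norm_num)⟩

theorem Fr_vol (hw : MonotoneOn w (Ico 0 1)) (h0 : ∀ t ∈ Ico (0:ℝ) 1, 0 ≤ w t)
    (hub : ∀ B : ℝ, ∃ t ∈ Ico (0:ℝ) 1, B < w t) : volume.real (Fr w) ≤ w (Real.exp (-(1 / 2))) :=
  real_le hw h0 hub half_mem.1 half_mem.2

theorem Fr_fin (hw : MonotoneOn w (Ico 0 1)) (hub : ∀ B : ℝ, ∃ t ∈ Ico (0:ℝ) 1, B < w t) : volume (Fr w) ≠ ⊤ :=
  fin_vol hw hub half_mem.2

/-- Lipschitz bound of the difference -/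
theorem Dl_bd {H : ℝ → ℝ} {y B lam : ℝ} (hub : ∀ B : ℝ, ∃ t ∈ Ico (0:ℝ) 1, B < w t)
    (hB : |H y| ≤ B) (hL : ∀ t : ℝ, -(1 / 2) ≤ t → t ≤ 0 → |H y - H (y + t)| ≤ B * |t|)
    (h : Real.exp (-(1 / 2)) ≤ Ac w lam) : |Dl H w y lam| ≤ 3 * B * (1 - Ac w lam) := by
  have h35 := exp_neg_half
  have ha1 := Ac_lt_one hub lam
  set a := Ac w lam with ha
  have ha0 : 0 < a := by linarith
  have hB0 : 0 ≤ B := (abs_nonneg _).trans hB
  have hs1 : √a ≤ 1 := Real.sqrt_le_one.mpr ha1.le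
  have hs2 : a ≤ √a := by
    have h1 := Real.sq_sqrt ha0.le
    have h2 := Real.sqrt_nonneg a
    nlinarith
  have hl0 : Real.log a ≤ 0 := Real.log_nonpos ha0.le ha1.le
  have hl1 : -(1 / 2) ≤ Real.log a := by
    rw [Real.le_log_iff_exp_le ha0]
    exact h
  have hl2 : |Real.log a| ≤ 5 / 3 * (1 - a) := by
    rw [abs_of_nonpos hl0, ← Real.log_inv]
    have h1 := Real.log_le_sub_one_of_pos (inv_pos.mpr ha0)
    have h2 : a⁻¹ - 1 ≤ 5 / 3 * (1 - a) := by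
      have h3 : a⁻¹ - 1 = (1 - a) / a := by field_simp
      rw [h3, div_le_iff₀ ha0]
      nlinarith
    linarith
  have hD : Dl H w y lam = (1 - √a) * H y + √a * (H y - H (y + Real.log a)) := by
    unfold Dl
    rw [← ha]
    ring
  rw [hD]
  refine (abs_add_le _ _).trans ?_
  rw [abs_mul, abs_mul, abs_of_nonneg (by linarith : 0 ≤ 1 - √a), abs_of_nonneg (Real.sqrt_nonneg a)]
  have h1 : (1 - √a) * |H y| ≤ (1 - a) * B := mul_le_mul (by linarith) hB (abs_nonneg _) (by linarith)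
  have h2 : √a * |H y - H (y + Real.log a)| ≤ 1 * (B * (5 / 3 * (1 - a))) :=
    mul_le_mul hs1 ((hL _ hl1 hl0).trans (mul_le_mul_of_nonneg_left hl2 hB0)) (abs_nonneg _) zero_le_one
  nlinarith [mul_nonneg hB0 (by linarith : 0 ≤ 1 - a)]

theorem Dl_meas {H : ℝ → ℝ} (hH : Measurable H) (hub : ∀ B : ℝ, ∃ t ∈ Ico (0:ℝ) 1, B < w t) (y : ℝ) :
    Measurable (Dl H w y) := by
  unfold Dl
  have h1 := Ac_meas hub
  have h2 : Measurable fun lam => H (y + Real.log (Ac w lam)) :=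
    hH.comp (measurable_const.add (Real.measurable_log.comp h1))
  exact measurable_const.sub (h1.sqrt.mul h2)

theorem gap_int (h0 : ∀ t ∈ Ico (0:ℝ) 1, 0 ≤ w t) (hw : MonotoneOn w (Ico 0 1))
    (hub : ∀ B : ℝ, ∃ t ∈ Ico (0:ℝ) 1, B < w t) {C : ℝ} (hC : ∀ N : ℕ, 1 ≤ N → w (1 - 1 / N) ≤ C * √N) :
    IntegrableOn (fun lam => 1 - Ac w lam) (Nr w) :=
  (Ac_int h0 hw hub hC).mono_set fun _ h => h.1

/-- integrability over the near levels -/
theorem Dl_int {H : ℝ → ℝ} (hH : Measurable H) {y B : ℝ} (h0 : ∀ t ∈ Ico (0:ℝ) 1, 0 ≤ w t)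
    (hw : MonotoneOn w (Ico 0 1)) (hub : ∀ B : ℝ, ∃ t ∈ Ico (0:ℝ) 1, B < w t) {C : ℝ}
    (hC : ∀ N : ℕ, 1 ≤ N → w (1 - 1 / N) ≤ C * √N)
    (hB : |H y| ≤ B) (hL : ∀ t : ℝ, -(1 / 2) ≤ t → t ≤ 0 → |H y - H (y + t)| ≤ B * |t|) :
    IntegrableOn (Dl H w y) (Nr w) := by
  refine ((gap_int h0 hw hub hC).const_mul (3 * B)).mono' (Dl_meas hH hub y).aestronglyMeasurable ?_
  filter_upwards [ae_restrict_mem (Nr_meas hub)] with lam hlam
  rw [Real.norm_eq_abs]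
  exact Dl_bd hub hB hL hlam.2

/-- passage to the limit over the near levels -/
theorem Dl_lim {Hn : ℕ → ℝ → ℝ} {H : ℝ → ℝ} (hHn : ∀ n, Measurable (Hn n)) {yn : ℕ → ℝ} {y B : ℝ}
    (h0 : ∀ t ∈ Ico (0:ℝ) 1, 0 ≤ w t) (hw : MonotoneOn w (Ico 0 1))
    (hub : ∀ B : ℝ, ∃ t ∈ Ico (0:ℝ) 1, B < w t) {C : ℝ} (hC : ∀ N : ℕ, 1 ≤ N → w (1 - 1 / N) ≤ C * √N)
    (hB : ∀ᶠ n in atTop, |Hn n (yn n)| ≤ B)
    (hL : ∀ᶠ n in atTop, ∀ t : ℝ, -(1 / 2) ≤ t → t ≤ 0 → |Hn n (yn n) - Hn n (yn n + t)| ≤ B * |t|)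
    (hlim : ∀ t : ℝ, -(1 / 2) ≤ t → t ≤ 0 → Tendsto (fun n => Hn n (yn n + t)) atTop (𝓝 (H (y + t)))) :
    Tendsto (fun n => ∫ lam in Nr w, Dl (Hn n) w (yn n) lam) atTop (𝓝 (∫ lam in Nr w, Dl H w y lam)) := by
  refine tendsto_integral_filter_of_dominated_convergence (fun lam => 3 * B * (1 - Ac w lam)) ?_ ?_
    ((gap_int h0 hw hub hC).const_mul (3 * B)) ?_
  · exact Eventually.of_forall fun n => (Dl_meas (hHn n) hub (yn n)).aestronglyMeasurable
  · filter_upwards [hB, hL] with n h1 h2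
    filter_upwards [ae_restrict_mem (Nr_meas hub)] with lam hlam
    rw [Real.norm_eq_abs]
    exact Dl_bd hub h1 h2 hlam.2
  · filter_upwards [ae_restrict_mem (Nr_meas hub)] with lam hlam
    have ha0 : 0 < Ac w lam := (Real.exp_pos _).trans_le hlam.2
    have hl0 : Real.log (Ac w lam) ≤ 0 := Real.log_nonpos ha0.le (Ac_lt_one hub lam).le
    have hl1 : -(1 / 2) ≤ Real.log (Ac w lam) := by
      rw [Real.le_log_iff_exp_le ha0]
      exact hlam.2
    unfold Dl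
    have h1 := hlim 0 (by norm_num) le_rfl
    simp only [add_zero] at h1
    exact h1.sub ((hlim _ hl1 hl0).const_mul _)

/-- bound and Lipschitz bound of the smoothed function near one point -/
theorem hh_bd_lip {δ : ℝ} (hδ : δ ≤ 1) (y : ℝ) : ∃ B : ℝ, |hh δ y| ≤ B ∧
    ∀ t : ℝ, -(1 / 2) ≤ t → t ≤ 0 → |hh δ y - hh δ (y + t)| ≤ B * |t| := by
  refine ⟨Real.exp (Real.exp (2 * (1 + 1)) / 10) * ∫ v : ℝ, |ms (y + v)| * wt v, ?_, fun t h1 h2 => ?_⟩
  · have := hh_bd_wt hδ (t := 0) (R := 1) (by simp) y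
    rwa [add_zero] at this
  · have := hh_lip_wt hδ (t := 0) (t' := t) (R := 1) (by simp) (by rw [abs_le]; constructor <;> linarith) y
    rw [add_zero, zero_sub, abs_neg] at this
    refine this.trans_eq ?_
    ring

/-- **(S)**: the spike -/
theorem spike : ∃ C : ℝ, 0 ≤ C ∧ ∀ (w : ℝ → ℝ) (σ u₀ δ Cw : ℝ), Pl σ u₀ → 0 < δ → δ ≤ 1 / 4 →
    (∀ t ∈ Ico (0:ℝ) 1, 0 ≤ w t) → MonotoneOn w (Ico 0 1) → (∀ B : ℝ, ∃ t ∈ Ico (0:ℝ) 1, B < w t) →
    (∀ N : ℕ, 1 ≤ N → w (1 - 1 / N) ≤ Cw * √N) →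
      (1 / 2 * (w (Real.exp (-(2 * δ))) - w (Real.exp (-(1 / 2)))) - C * ∫ t in Ico (0:ℝ) 1, w t) * (∫ u, gt δ u) ≤
        σ * ∫ lam in Nr w, Dl (hh δ) w u₀ lam := by
  obtain ⟨C, hC0, hlev⟩ := level
  refine ⟨C, hC0, fun w σ u₀ δ Cw hP hδ hδ4 h0 hw hub hC => ?_⟩
  have hI : 0 ≤ ∫ u, gt δ u := integral_nonneg (gt_nonneg δ)
  have hδ1 : δ ≤ 1 := by linarith
  obtain ⟨B, hB, hL⟩ := hh_bd_lip hδ1 u₀
  have hDi := Dl_int (hh_cont hδ1).measurable h0 hw hub hC hB hL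
  have hgi := gap_int h0 hw hub hC
  have hsm : MeasurableSet (Nr w ∩ {lam | Ac w lam < Real.exp (-δ)}) :=
    (Nr_meas hub).inter (measurableSet_lt (Ac_meas hub) measurable_const)
  -- the set of levels of the spike
  have hed : Real.exp (-δ) < 1 := Real.exp_lt_one_iff.mpr (by linarith)
  have hset : {lam : ℝ | 0 < lam ∧ Ac w lam < Real.exp (-δ)} ⊆ (Nr w ∩ {lam | Ac w lam < Real.exp (-δ)}) ∪ Fr w := by
    intro lam h
    rcases le_or_gt (Real.exp (-(1 / 2))) (Ac w lam) with h1 | h1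
    · exact Or.inl ⟨⟨h.1, h1⟩, h.2⟩
    · exact Or.inr ⟨h.1, h1⟩
  have hfin : volume (Nr w ∩ {lam | Ac w lam < Real.exp (-δ)}) ≠ ⊤ :=
    ne_top_of_le_ne_top (fin_vol hw hub hed) (measure_mono fun lam h => ⟨h.1.1, h.2⟩)
  have hmem2 : Real.exp (-(2 * δ)) ∈ Ico (0:ℝ) 1 := ⟨(Real.exp_pos _).le, Real.exp_lt_one_iff.mpr (by linarith)⟩
  have hv : w (Real.exp (-(2 * δ))) - w (Real.exp (-(1 / 2))) ≤
      volume.real (Nr w ∩ {lam | Ac w lam < Real.exp (-δ)}) := by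
    have h1 := real_ge hw hub hmem2 (Real.exp_lt_exp.mpr (by linarith : -(2 * δ) < -δ)) hed
    have h2 : volume.real {lam : ℝ | 0 < lam ∧ Ac w lam < Real.exp (-δ)} ≤
        volume.real (Nr w ∩ {lam | Ac w lam < Real.exp (-δ)}) + volume.real (Fr w) :=
      (measureReal_mono hset (measure_union_ne_top hfin (Fr_fin hw hub))).trans (measureReal_union_le _ _)
    have h3 := Fr_vol hw h0 hub
    linarith
  -- the integral of the lower bound
  have e1 : ∫ lam in Nr w, ({lam | Ac w lam < Real.exp (-δ)}.indicator (fun _ => (1:ℝ)) lam) =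
      volume.real (Nr w ∩ {lam | Ac w lam < Real.exp (-δ)}) := by
    rw [integral_indicator (measurableSet_lt (Ac_meas hub) measurable_const), setIntegral_const,
      smul_eq_mul, mul_one, measureReal_restrict_apply (measurableSet_lt (Ac_meas hub) measurable_const), inter_comm]
  have i1 : IntegrableOn (fun lam => {lam | Ac w lam < Real.exp (-δ)}.indicator (fun _ => (1:ℝ)) lam) (Nr w) := by
    rw [IntegrableOn, integrable_indicator_iff (measurableSet_lt (Ac_meas hub) measurable_const)]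
    refine integrableOn_const ?_
    rw [Measure.restrict_apply (measurableSet_lt (Ac_meas hub) measurable_const), inter_comm]
    exact hfin
  have e2 : ∫ lam in Nr w, (1 - Ac w lam) ≤ ∫ t in Ico (0:ℝ) 1, w t := by
    rw [← Ac_int_eq h0 hw hub]
    refine setIntegral_mono_set (Ac_int h0 hw hub hC) ?_ (Eventually.of_forall fun lam h => h.1)
    exact Eventually.of_forall fun lam => by
      have := Ac_lt_one hub lam
      show (0:ℝ) ≤ 1 - Ac w lam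
      linarith
  have hmono : ∫ lam in Nr w, ((1 / 2 * ({lam | Ac w lam < Real.exp (-δ)}.indicator (fun _ => (1:ℝ)) lam) -
      C * (1 - Ac w lam)) * ∫ u, gt δ u) ≤ ∫ lam in Nr w, σ * Dl (hh δ) w u₀ lam := by
    refine setIntegral_mono_on (((i1.const_mul _).sub (hgi.const_mul _)).mul_const _) (hDi.const_mul _) (Nr_meas hub)
      fun lam hlam => ?_
    have := hlev σ u₀ hP δ hδ hδ4 (Ac w lam) hlam.2 (Ac_lt_one hub lam)
    have e3 : ({lam | Ac w lam < Real.exp (-δ)}.indicator (fun _ => (1:ℝ)) lam) =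
        if Ac w lam < Real.exp (-δ) then 1 else 0 := by
      simp only [Set.indicator, mem_setOf_eq]
    rw [e3]
    exact this
  rw [integral_mul_const, integral_sub (i1.const_mul _) (hgi.const_mul _), integral_const_mul, integral_const_mul, e1,
    integral_const_mul] at hmono
  refine le_trans (mul_le_mul_of_nonneg_right ?_ hI) hmono
  have := mul_le_mul_of_nonneg_left e2 hC0
  linarith

/-- **(F)**: the far levels -/
theorem far {H : ℝ → ℝ} {σ y B : ℝ} (hσ : |σ| = 1) (hB0 : 0 ≤ B) (hB : ∀ x, σ * H x ≤ B)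
    (h0 : ∀ t ∈ Ico (0:ℝ) 1, 0 ≤ w t) (hw : MonotoneOn w (Ico 0 1))
    (hub : ∀ B : ℝ, ∃ t ∈ Ico (0:ℝ) 1, B < w t) :
    -(w (Real.exp (-(1 / 2))) * (|H y| + B)) ≤ σ * ∫ lam in Fr w, Dl H w y lam := by
  have hw0 := h0 _ half_mem
  have hneg : -(w (Real.exp (-(1 / 2))) * (|H y| + B)) ≤ 0 := by
    have := mul_nonneg hw0 (add_nonneg (abs_nonneg (H y)) hB0)
    linarith
  have hpt : ∀ lam, -(|H y| + B) ≤ σ * Dl H w y lam := by
    intro lam
    have hs0 := Real.sqrt_nonneg (Ac w lam)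
    have hs1 : √(Ac w lam) ≤ 1 := Real.sqrt_le_one.mpr (Ac_lt_one hub lam).le
    have h1 := hB (y + Real.log (Ac w lam))
    have h2 : -|H y| ≤ σ * H y := by
      have := neg_abs_le (σ * H y)
      rwa [abs_mul, hσ, one_mul] at this
    have h3 : σ * Dl H w y lam = σ * H y - √(Ac w lam) * (σ * H (y + Real.log (Ac w lam))) := by
      unfold Dl
      ring
    rw [h3]
    have h4 : √(Ac w lam) * (σ * H (y + Real.log (Ac w lam))) ≤ √(Ac w lam) * B := mul_le_mul_of_nonneg_left h1 hs0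
    nlinarith
  rw [← integral_const_mul]
  by_cases hi : IntegrableOn (fun lam => σ * Dl H w y lam) (Fr w)
  · have h1 : ∫ _ in Fr w, (-(|H y| + B)) ≤ ∫ lam in Fr w, σ * Dl H w y lam :=
      setIntegral_mono_on (integrableOn_const (Fr_fin hw hub)) hi (Fr_meas hub) fun lam _ => hpt lam
    rw [setIntegral_const, smul_eq_mul] at h1
    have h2 := Fr_vol hw h0 hub
    have h3 := mul_le_mul_of_nonneg_right h2 (add_nonneg (abs_nonneg (H y)) hB0)
    linarith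
  · rw [integral_undef hi]
    exact hneg

end Pool.Agent.Helper95.EW
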