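import Pool.Agent.Helper95.EW.Hm
import Pool.Agent.Helper25.ED.Defs

/-! # Edge weights (`MP_a499ba_nt`): assembly of the first clause, from the returning times and the upper bound -/

set_option autoImplicit false
open MeasureTheory Real Set Filter Topology
open Pool.Agent.Helper71.MR (gt hh mm)
open Pool.Agent.Helper25.ED (SW)

namespace Pool.Agent.Helper95.EW

/-- returning times (helper47) -/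
def RetS : Prop := ∀ σ K : ℝ, |σ| = 1 → (∀ t : ℝ, σ * mm t ≤ K) → ∀ δ : ℝ, 0 < δ → δ ≤ 1 →
  ∃ (τ : ℕ → ℝ) (B : ℝ), 0 ≤ B ∧ Tendsto τ atTop atTop ∧
    (∀ t : ℝ, Tendsto (fun n => hh δ (τ n + t)) atTop (𝓝 (hh δ t))) ∧
    ∀ᶠ n in atTop, ∀ t t' : ℝ, |t| ≤ 2 → |t'| ≤ 2 → |t - t'| ≤ 1 →
      |hh δ (τ n + t) - hh δ (τ n + t')| ≤ B * |t - t'|

/-- upper bound (helper63, helper25) -/
def UpS : Prop := ∀ (σ : ℝ) (w : ℝ → ℝ) (Cw K : ℝ) (N₀ : ℕ), |σ| = 1 → (∀ t ∈ Ico (0:ℝ) 1, 0 ≤ w t) →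
  MonotoneOn w (Ico 0 1) → (∀ B : ℝ, ∃ t ∈ Ico (0:ℝ) 1, B < w t) → (∀ N : ℕ, 1 ≤ N → w (1 - 1 / N) ≤ Cw * √N) →
  (∀ N : ℕ, N₀ ≤ N → σ * SW w N ≤ K * √(N : ℝ)) →
    ∃ C : ℝ, 0 ≤ C ∧ ∀ δ : ℝ, 0 < δ → δ ≤ 1 → ∃ τ₀ : ℝ, ∀ τ : ℝ, τ₀ ≤ τ →
      IntegrableOn (Dl (hm δ) w τ) (Ioi 0) ∧ σ * ∫ lam in Ioi (0:ℝ), Dl (hm δ) w τ lam ≤ C * ∫ u : ℝ, gt δ u

/-- **the first clause**: no one-sided bound, from a one-sided bound of the Mertens function -/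
theorem edge_of (hret : RetS) (hup : UpS) {w : ℝ → ℝ} (h0 : ∀ t ∈ Ico (0:ℝ) 1, 0 ≤ w t)
    (hw : MonotoneOn w (Ico 0 1)) (hub : ∀ B : ℝ, ∃ t ∈ Ico (0:ℝ) 1, B < w t) {Cw : ℝ}
    (hC : ∀ N : ℕ, 1 ≤ N → w (1 - 1 / N) ≤ Cw * √N) {σ u₀ K K' : ℝ} {N₀ : ℕ} (hP : Pl σ u₀)
    (hS : ∀ N : ℕ, N₀ ≤ N → σ * SW w N ≤ K * √(N : ℝ)) (hM : ∀ t : ℝ, σ * mm t ≤ K') : False := by
  have hσ : |σ| = 1 := by
    rcases hP with ⟨rfl, -⟩ | ⟨rfl, -⟩ <;> norm_num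
  have hu₀ : 0 ≤ u₀ := by
    rcases hP with ⟨-, rfl⟩ | ⟨-, rfl⟩
    · exact le_rfl
    · exact Real.log_nonneg (by norm_num)
  obtain ⟨C, hC0, hup⟩ := hup σ w Cw K N₀ hσ h0 hw hub hC hS
  refine contra h0 hw hub hC (K := max K' 0) (K₁ := C) hP (le_max_right _ _)
    (fun x => (hM x).trans (le_max_left _ _)) fun δ hδ hδ4 => ?_
  obtain ⟨τ, B, -, hτ, hlim, hlip⟩ := hret σ K' hσ hM δ hδ (by linarith)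
  obtain ⟨τ₀, hτ₀⟩ := hup δ hδ (by linarith)
  refine ⟨τ, B, hτ.eventually_ge_atTop 0, fun t _ => hlim t, hlip, ?_⟩
  filter_upwards [hτ.eventually_ge_atTop τ₀] with n hn
  exact hτ₀ (τ n + u₀) (by linarith)

/-- **both signs**: with the maximum principle the sums are unbounded above and below -/
theorem unb_of (hret : RetS) (hup : UpS)
    (hmax : ∀ (σ : ℝ) (w : ℝ → ℝ) (Cw K : ℝ) (N₀ : ℕ), |σ| = 1 → (∀ t ∈ Ico (0:ℝ) 1, 0 ≤ w t) →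
      MonotoneOn w (Ico 0 1) → (∃ t ∈ Ico (0:ℝ) 1, w t ≠ 0) → (∀ N : ℕ, 1 ≤ N → w (1 - 1 / N) ≤ Cw * √N) →
      (∀ N : ℕ, N₀ ≤ N → σ * SW w N ≤ K * √(N : ℝ)) → ∃ K' : ℝ, ∀ t : ℝ, σ * mm t ≤ K')
    {w : ℝ → ℝ} (h0 : ∀ t ∈ Ico (0:ℝ) 1, 0 ≤ w t)
    (hw : MonotoneOn w (Ico 0 1)) (hub : ∀ B : ℝ, ∃ t ∈ Ico (0:ℝ) 1, B < w t) {Cw : ℝ}
    (hC : ∀ N : ℕ, 1 ≤ N → w (1 - 1 / N) ≤ Cw * √N) (K : ℝ) (N₀ : ℕ) :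
    (∃ N : ℕ, N₀ ≤ N ∧ K * √(N : ℝ) < SW w N) ∧ (∃ N : ℕ, N₀ ≤ N ∧ SW w N < -K * √(N : ℝ)) := by
  have hne : ∃ t ∈ Ico (0:ℝ) 1, w t ≠ 0 := by
    obtain ⟨t, h1, h2⟩ := hub 0
    exact ⟨t, h1, h2.ne'⟩
  constructor
  · by_contra hc
    push Not at hc
    have hS : ∀ N : ℕ, N₀ ≤ N → (1:ℝ) * SW w N ≤ K * √(N : ℝ) := fun N hN => by
      rw [one_mul]
      exact hc N hN
    obtain ⟨K', hK'⟩ := hmax 1 w Cw K N₀ (by norm_num) h0 hw hne hC hS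
    exact edge_of hret hup h0 hw hub hC (Or.inl ⟨rfl, rfl⟩) hS hK'
  · by_contra hc
    push Not at hc
    have hS : ∀ N : ℕ, N₀ ≤ N → (-1:ℝ) * SW w N ≤ K * √(N : ℝ) := fun N hN => by
      have := hc N hN
      linarith
    obtain ⟨K', hK'⟩ := hmax (-1) w Cw K N₀ (by norm_num) h0 hw hne hC hS
    exact edge_of hret hup h0 hw hub hC (Or.inr ⟨rfl, rfl⟩) hS hK'

end Pool.Agent.Helper95.EW
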