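import Pool.Agent.Helper95.EW.Edge
import Pool.Agent.Helper63.EW.U
import Pool.Agent.Helper47.EG.Ret

/-! # Edge weights (`MP_a499ba_nt`): the first clause without hypotheses -/

set_option autoImplicit false
open MeasureTheory Real Set Filter Topology
open Pool.Agent.Helper71.MR (gt hh mm)
open Pool.Agent.Helper25.ED (SW)

namespace Pool.Agent.Helper95.EW

theorem retS : RetS := by
  intro σ K hσ hK δ _ hδ1
  obtain ⟨τ, B, hB, hτ, -, hlim, hlip⟩ := Pool.Agent.Helper47.EG.ret hσ hK hδ1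
  exact ⟨τ, B, hB, hτ, hlim, hlip.mono fun n hn t t' h1 _ h3 => (hn t t' h1 h3).2⟩

theorem upS : UpS := by
  intro σ w Cw K N₀ hσ h0 hw hub hC hS
  have hC0 : 0 ≤ Cw := by
    have := (h0 0 ⟨le_rfl, one_pos⟩).trans (by simpa using hC 1 le_rfl)
    exact this
  exact ⟨2 * max K 0 + 24 * Cw, by positivity,
    fun δ hδ hδ1 => Pool.Agent.Helper63.EW.U h0 hw hub hC hσ hS hδ hδ1⟩

/-- **clause (1)**: the sums of the Moebius function with a weight that is unbounded at the edge, divided by `√N`, are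
unbounded above and below -/
theorem unb {w : ℝ → ℝ} (h0 : ∀ t ∈ Ico (0:ℝ) 1, 0 ≤ w t)
    (hw : MonotoneOn w (Ico 0 1)) (hub : ∀ B : ℝ, ∃ t ∈ Ico (0:ℝ) 1, B < w t) {Cw : ℝ}
    (hC : ∀ N : ℕ, 1 ≤ N → w (1 - 1 / N) ≤ Cw * √N) (K : ℝ) (N₀ : ℕ) :
    (∃ N : ℕ, N₀ ≤ N ∧ K * √(N : ℝ) < SW w N) ∧ (∃ N : ℕ, N₀ ≤ N ∧ SW w N < -K * √(N : ℝ)) :=
  unb_of retS upS (fun σ w Cw K N₀ hσ h0 hw hne hC hS => by
    obtain ⟨K', -, h⟩ := Pool.Agent.Helper63.EW.mm_le h0 hw hne hC hσ hS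
    exact ⟨K', h⟩) h0 hw hub hC K N₀

end Pool.Agent.Helper95.EW
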